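import Pool.Agent.Helper24.LQ.X2
import Pool.Agent.Helper47.AQ.Vol

set_option autoImplicit false

/-!
Packet LQ-VOL: the volume of a body in normal position.
-/

open MeasureTheory Set
open scoped ENNReal
open Pool.Agent.Helper47.AQ

noncomputable section

namespace Pool.Agent.Helper24.LQ

open Pool.Agent.Helper31.LQ

variable {n : ℕ}

/-! ### The gauge -/

theorem gauge_le_one_set {K : Set (Fin n → ℝ)} (hK : IsBody K)
    (h0 : (0 : Fin n → ℝ) ∈ interior K) : {x | gauge K x ≤ 1} = K := by
  ext x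
  rw [mem_setOf_eq, gauge_le_one_iff_mem_closure hK.conv (mem_interior_iff_mem_nhds.1 h0),
    hK.comp.isClosed.closure_eq]

theorem lap {K : Set (Fin n → ℝ)} (hK : IsBody K) (h0 : (0 : Fin n → ℝ) ∈ interior K)
    (hc : Continuous (gauge K)) :
    ∫⁻ x, ENNReal.ofReal (Real.exp (-(gauge K x))) = (n.factorial : ℝ≥0∞) * volume K := by
  have h := laplace (ι := Fin n) univ (fun t _ x => by simp) (gauge K) hc.measurable
    (fun t ht x => by rw [gauge_smul_of_nonneg ht.le, smul_eq_mul]) (fun x => gauge_nonneg x)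
  rw [univ_inter, Measure.restrict_univ, gauge_le_one_set hK h0, Fintype.card_fin] at h
  exact h

/-! ### The embedding of a face -/

theorem emb_at (m : ℕ) (π : Equiv.Perm (Fin (n + 1))) (s : Fin m → ℝ) (o : Fin (n + 1)) :
    emb m π s o = if h : (π.symm o).val < m then s ⟨(π.symm o).val, h⟩ else 0 := rfl

theorem emb_add (m : ℕ) (π : Equiv.Perm (Fin (n + 1))) (s t : Fin m → ℝ) :
    emb m π (s + t) = emb m π s + emb m π t := by
  funext o
  rw [Pi.add_apply, emb_at, emb_at, emb_at]
  split_ifs <;> simp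

theorem emb_smul (m : ℕ) (π : Equiv.Perm (Fin (n + 1))) (c : ℝ) (t : Fin m → ℝ) :
    emb m π (c • t) = c • emb m π t := by
  funext o
  rw [Pi.smul_apply, emb_at, emb_at]
  split_ifs <;> simp

theorem emb_cont (m : ℕ) (π : Equiv.Perm (Fin (n + 1))) : Continuous (emb m π) := by
  refine continuous_pi fun o => ?_
  by_cases h : (π.symm o).val < m
  · have e : (fun t : Fin m → ℝ => emb m π t o) = fun t => t ⟨(π.symm o).val, h⟩ := by
      funext t
      rw [emb_at, dif_pos h]
    rw [e]
    exact continuous_apply _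
  · have e : (fun t : Fin m → ℝ => emb m π t o) = fun _ => 0 := by
      funext t
      rw [emb_at, dif_neg h]
    rw [e]
    exact continuous_const

theorem emb_last (π : Equiv.Perm (Fin (n + 1))) (t : Fin n → ℝ) :
    emb n π t (π (Fin.last n)) = 0 := by
  rw [emb_at, dif_neg]
  rw [Equiv.symm_apply_apply, Fin.val_last]
  exact lt_irrefl n

theorem emb_nonneg (m : ℕ) (π : Equiv.Perm (Fin (n + 1))) {t : Fin m → ℝ} (ht : t ∈ pos m)
    (o : Fin (n + 1)) : 0 ≤ emb m π t o := by
  rw [emb_at]
  split_ifs with h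
  · exact (ht _).le
  · exact le_rfl

theorem sl_emb (m : ℕ) (π : Equiv.Perm (Fin (n + 1))) {P : (Fin (n + 1) → ℝ) → ℝ}
    (hP : SL (n + 1) P) : SL m fun s => P (emb m π s) where
  cont := hP.cont.comp (emb_cont m π)
  nn := fun t => hP.nn _
  add := fun s t => by rw [emb_add]; exact hP.add _ _
  hom := fun c hc t => by rw [emb_smul]; exact hP.hom c hc _

theorem ell_emb (hCO : CO) (π : Equiv.Perm (Fin (n + 1))) (t : Fin n → ℝ) :
    ell (π (Fin.last n)) (emb n π t) = ∑ a, t a := by
  have h := (hCO n n (fun _ _ => 0)).2.2.2.2.2.2.2.2.2.2.1 π t (Nat.le_succ n)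
  unfold ell
  rw [emb_last, h, mul_zero, sub_zero]

/-! ### The exponential integrals -/

theorem exp_part (hX1 : X1) {P : (Fin n → ℝ) → ℝ} (hP : SL n P) :
    ∃ I : ℝ, 0 ≤ I ∧ 1 - Ex n P ≤ I ∧
      ∫⁻ t in pos n, ENNReal.ofReal (Real.exp (-(∑ a, t a + P t))) = ENNReal.ofReal I := by
  have h1 : IntegrableOn (fun t : Fin n → ℝ => Real.exp (-∑ a, t a) * P t) (pos n) := by
    have h := (hX1 n P hP 1 one_pos).1
    simpa only [one_mul] using h
  have h2 : IntegrableOn (fun t : Fin n → ℝ => Real.exp (-∑ a, t a)) (pos n) ∧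
      ∫ t in pos n, Real.exp (-∑ a, t a) = 1 := by
    have h := (gX2 n).1 1 one_pos
    simpa only [one_mul, one_pow, inv_one] using h
  have h3 : IntegrableOn (fun t : Fin n → ℝ => Real.exp (-(∑ a, t a + P t))) (pos n) := by
    refine Integrable.mono' h2.1 ?_ ?_
    · refine Continuous.aestronglyMeasurable ?_
      refine Real.continuous_exp.comp (Continuous.neg ?_)
      exact (continuous_finsetSum _ fun a _ => continuous_apply a).add hP.cont
    · refine Filter.Eventually.of_forall fun t => ?_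
      rw [Real.norm_eq_abs, abs_of_pos (Real.exp_pos _)]
      refine Real.exp_le_exp.2 ?_
      have := hP.nn t
      linarith
  refine ⟨∫ t in pos n, Real.exp (-(∑ a, t a + P t)), ?_, ?_, ?_⟩
  · exact integral_nonneg fun t => (Real.exp_pos _).le
  · have h4 : ∫ t in pos n, (Real.exp (-∑ a, t a) - Real.exp (-∑ a, t a) * P t) = 1 - Ex n P := by
      rw [integral_sub h2.1 h1, h2.2]
      rfl
    rw [← h4]
    refine integral_mono (h2.1.sub h1) h3 fun t => ?_
    show Real.exp (-∑ a, t a) - Real.exp (-∑ a, t a) * P t ≤ Real.exp (-(∑ a, t a + P t))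
    rw [neg_add, Real.exp_add]
    have h5 : 1 - P t ≤ Real.exp (-(P t)) := by
      have := Real.add_one_le_exp (-(P t))
      linarith
    have h6 := Real.exp_pos (-∑ a, t a)
    have h7 := mul_le_mul_of_nonneg_left h5 h6.le
    linarith
  · rw [ofReal_integral_eq_lintegral_ofReal h3]
    exact Filter.Eventually.of_forall fun t => (Real.exp_pos _).le

/-! ### The decomposition -/

theorem base (hDEC : DEC) (hGPID : GPID) (hCO : CO) (hn : 1 ≤ n) {K : Set (Fin n → ℝ)}
    (hK : IsBody K) (h0 : (0 : Fin n → ℝ) ∈ interior K) (hc : Continuous (gauge K)) :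
    (n.factorial : ℝ≥0∞) * ((n.factorial : ℝ≥0∞) * volume K) =
      ∑ π : Equiv.Perm (Fin (n + 1)), ∫⁻ t in pos n,
        ENNReal.ofReal (Real.exp (-(∑ a, t a + psi K (π (Fin.last n)) (emb n π t)))) := by
  obtain ⟨g1, g2, g3, g4⟩ := hGPID n hn
  have hF : Measurable fun z => ENNReal.ofReal (Real.exp (-(gauge K z))) :=
    (ENNReal.continuous_ofReal.comp (Real.continuous_exp.comp hc.neg)).measurable
  have h := hDEC n n hn le_rfl _ g1 _ hF
  rw [g4, lap hK h0 hc] at h
  rw [h]
  refine Finset.sum_congr rfl fun π _ => ?_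
  rw [if_pos (g3 π).1, (g3 π).2, ENNReal.ofReal_one, one_mul]
  refine lintegral_congr fun t => ?_
  rw [g2]
  have e : ∑ a, t a + psi K (π (Fin.last n)) (emb n π t) = gauge K (pr (emb n π t)) := by
    unfold psi
    rw [ell_emb hCO]
    ring
  rw [e]

/-- The simplex itself is in normal position. -/
theorem pos_D0 (hD0B : D0B) (hCO : CO) (hn : 1 ≤ n) : Pos n (D0 n) 0 := by
  obtain ⟨b1, b2, b3, b4, -⟩ := hD0B n hn
  obtain ⟨c1, c2, c3, c4, c5, c6, c7, c8, c9, c10, -⟩ := hCO n n (fun _ _ => 0)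
  have hn0 : (n : ℝ) ≠ 0 := by
    have : 0 < n := hn
    exact_mod_cast this.ne'
  have hv : ∀ o : Fin (n + 1), ver o ∈ D0 n := by
    intro o
    rw [b1]
    exact subset_convexHull ℝ _ (mem_range_self o)
  have hell : ∀ (j o : Fin (n + 1)), ell j (li (ver o)) = 1 - (n + 1) * (if j = o then 1 else 0) := by
    intro j o
    show ell j (li (pr (Pi.single o 1))) = _
    rw [c10]
    unfold ell
    rw [Finset.sum_pi_single']
    simp only [Finset.mem_univ, if_true]
    rw [Pi.single_apply]
  refine ⟨b3.conv, b3.comp, subset_rfl, ?_, ?_, le_rfl, zero_le_one⟩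
  · intro o j
    have hli : ∀ (c : ℝ) (x : Fin n → ℝ), ell j (li (c • x)) = c * ell j (li x) := by
      intro c x
      have e : li (c • x) = c • li x := by
        funext i
        refine Fin.lastCases ?_ (fun l => ?_) i
        · rw [Pi.smul_apply]
          unfold li
          rw [Fin.snoc_last, Fin.snoc_last, smul_zero]
        · rw [Pi.smul_apply]
          unfold li
          rw [Fin.snoc_castSucc, Fin.snoc_castSucc, Pi.smul_apply]
      rw [e]
      unfold ell
      simp only [Pi.smul_apply, smul_eq_mul]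
      rw [← Finset.mul_sum]
      ring
    rw [hli, hell]
    split_ifs with h
    · have e : -(1 / (n : ℝ)) * (1 - (↑n + 1) * 1) = 1 := by
        field_simp
        ring
      rw [e]
    · have h1 : 0 < 1 / (n : ℝ) := by
        have : 0 < n := hn
        positivity
      rw [mul_zero, sub_zero, mul_one]
      linarith
  · intro o
    rw [add_zero]
    exact gauge_le_one_of_mem (hv o)

theorem gVOL (hDEC : DEC) (hGPID : GPID) (hPSI : PSI) (hD0B : D0B) (hX1 : X1) (hCO : CO) :
    VOL := by
  intro n hn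
  obtain ⟨C, hC0, hC⟩ := hPSI n hn
  have hf : (0 : ℝ) < n.factorial := by exact_mod_cast Nat.factorial_pos n
  have hf1 : (0 : ℝ) < (n + 1).factorial := by exact_mod_cast Nat.factorial_pos (n + 1)
  -- the general inequality
  have key : ∀ (K : Set (Fin n → ℝ)) (τ : ℝ), Pos n K τ →
      ((n + 1).factorial : ℝ) * (1 - Sm n (psi K)) ≤
        (n.factorial : ℝ) * ((n.factorial : ℝ) * (volume K).toReal) := by
    intro K τ hp
    obtain ⟨k1, k2, k3, k4, k5, k6, k7⟩ := hC K τ hp
    have hb := base hDEC hGPID hCO hn k1 k2 k3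
    choose I hI0 hI1 hI2 using fun π : Equiv.Perm (Fin (n + 1)) =>
      exp_part hX1 (sl_emb n π (k4.sl (π (Fin.last n))))
    rw [Finset.sum_congr rfl fun π _ => hI2 π, ← ENNReal.ofReal_sum_of_nonneg fun π _ => hI0 π] at hb
    have hb2 := congrArg ENNReal.toReal hb
    rw [ENNReal.toReal_mul, ENNReal.toReal_mul, ENNReal.toReal_natCast,
      ENNReal.toReal_ofReal (Finset.sum_nonneg fun π _ => hI0 π)] at hb2
    rw [hb2]
    unfold Sm
    have e : ((n + 1).factorial : ℝ) *
        (1 - (∑ π : Equiv.Perm (Fin (n + 1)), EP n π (psi K (π (Fin.last n)))) /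
          (n + 1).factorial) =
        ∑ π : Equiv.Perm (Fin (n + 1)), (1 - EP n π (psi K (π (Fin.last n)))) := by
      rw [Finset.sum_sub_distrib, Finset.sum_const, Finset.card_univ, Fintype.card_perm,
        Fintype.card_fin, nsmul_eq_mul, mul_one]
      field_simp
    rw [e]
    exact Finset.sum_le_sum fun π _ => hI1 π
  -- the simplex
  have hpD := pos_D0 hD0B hCO hn
  obtain ⟨k1, k2, k3, k4, k5, k6, k7⟩ := hC (D0 n) 0 hpD
  have hb := base hDEC hGPID hCO hn k1 k2 k3
  have h2 : IntegrableOn (fun t : Fin n → ℝ => Real.exp (-∑ a, t a)) (pos n) ∧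
      ∫ t in pos n, Real.exp (-∑ a, t a) = 1 := by
    have h := (gX2 n).1 1 one_pos
    simpa only [one_mul, one_pow, inv_one] using h
  have hone : ∀ π : Equiv.Perm (Fin (n + 1)), ∫⁻ t in pos n,
      ENNReal.ofReal (Real.exp (-(∑ a, t a + psi (D0 n) (π (Fin.last n)) (emb n π t)))) = 1 := by
    intro π
    have e1 : ∫⁻ t in pos n,
        ENNReal.ofReal (Real.exp (-(∑ a, t a + psi (D0 n) (π (Fin.last n)) (emb n π t)))) =
        ∫⁻ t in pos n, ENNReal.ofReal (Real.exp (-∑ a, t a)) := by
      refine setLIntegral_congr_fun (meas_pos n) fun t ht => ?_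
      have a1 := k6 (π (Fin.last n)) (emb n π t) (emb_nonneg n π ht) (emb_last π t)
      have a2 := (k4.sl (π (Fin.last n))).nn (emb n π t)
      have a3 : psi (D0 n) (π (Fin.last n)) (emb n π t) = 0 := by
        rw [zero_mul] at a1
        exact le_antisymm a1 a2
      show ENNReal.ofReal (Real.exp (-(∑ a, t a + psi (D0 n) (π (Fin.last n)) (emb n π t)))) =
        ENNReal.ofReal (Real.exp (-∑ a, t a))
      rw [a3, add_zero]
    rw [e1, ← ofReal_integral_eq_lintegral_ofReal h2.1
      (Filter.Eventually.of_forall fun t => (Real.exp_pos _).le), h2.2, ENNReal.ofReal_one]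
  rw [Finset.sum_congr rfl fun π _ => hone π, Finset.sum_const, Finset.card_univ,
    Fintype.card_perm, Fintype.card_fin, nsmul_eq_mul, mul_one] at hb
  have hb2 := congrArg ENNReal.toReal hb
  rw [ENNReal.toReal_mul, ENNReal.toReal_mul, ENNReal.toReal_natCast,
    ENNReal.toReal_natCast] at hb2
  have hfac : ((n + 1).factorial : ℝ) = ((n : ℝ) + 1) * n.factorial := by
    rw [Nat.factorial_succ]
    push_cast
    ring
  have hD : (volume (D0 n)).toReal = ((n : ℝ) + 1) / n.factorial := by
    rw [eq_div_iff hf.ne']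
    rw [hfac] at hb2
    have h3 : (n.factorial : ℝ) * ((volume (D0 n)).toReal * n.factorial) =
        (n.factorial : ℝ) * ((n : ℝ) + 1) := by
      linarith
    exact mul_left_cancel₀ hf.ne' h3
  refine ⟨hD, fun K τ hp => ?_⟩
  have h4 := key K τ hp
  rw [hD]
  rw [hfac] at h4
  have h5 : ((n : ℝ) + 1) / n.factorial * (1 - Sm n (psi K)) =
      (((n : ℝ) + 1) * n.factorial * (1 - Sm n (psi K))) / (n.factorial * n.factorial) := by
    field_simp
  rw [h5, div_le_iff₀ (mul_pos hf hf)]
  linarith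

end Pool.Agent.Helper24.LQ
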