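import Pool.Agent.Helper31.LQ.Goals

set_option autoImplicit false

/-!
Packet LQ-X2: exponential variables.
-/

open MeasureTheory Set

noncomputable section

namespace Pool.Agent.Helper24.LQ

open Pool.Agent.Helper31.LQ

theorem pos_eq (m : ℕ) : pos m = Set.univ.pi fun _ : Fin m => Ioi (0 : ℝ) := by
  ext t
  simp [pos]

theorem restrict_pos (m : ℕ) : (volume : Measure (Fin m → ℝ)).restrict (pos m) =
    Measure.pi fun _ : Fin m => (volume : Measure ℝ).restrict (Ioi 0) := by
  rw [pos_eq, volume_pi, Measure.restrict_pi_pi]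

theorem meas_pos (m : ℕ) : MeasurableSet (pos m) := by
  rw [pos_eq]
  exact MeasurableSet.univ_pi fun _ => measurableSet_Ioi

theorem int_exp {r : ℝ} (hr : 0 < r) :
    Integrable (fun x : ℝ => Real.exp (-(r * x))) (volume.restrict (Ioi 0)) := by
  have h := exp_neg_integrableOn_Ioi 0 hr
  have e : (fun x : ℝ => Real.exp (-r * x)) = fun x : ℝ => Real.exp (-(r * x)) := by
    funext x
    rw [neg_mul]
  rw [e] at h
  exact h

theorem val_exp {r : ℝ} (hr : 0 < r) : ∫ x in Ioi (0 : ℝ), Real.exp (-(r * x)) = r⁻¹ := by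
  have h := integral_exp_mul_Ioi (a := -r) (by linarith) 0
  have e : (fun x : ℝ => Real.exp (-r * x)) = fun x : ℝ => Real.exp (-(r * x)) := by
    funext x
    rw [neg_mul]
  rw [e] at h
  rw [h]
  simp

theorem int_x : Integrable (fun x : ℝ => Real.exp (-x) * |x|) (volume.restrict (Ioi 0)) := by
  have h := Real.GammaIntegral_convergent (s := 2) (by norm_num)
  refine Integrable.congr h ?_
  filter_upwards [ae_restrict_mem measurableSet_Ioi] with x hx
  have hx' : (0 : ℝ) < x := hx
  have e2 : (2 : ℝ) - 1 = 1 := by norm_num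
  rw [e2, Real.rpow_one, abs_of_pos hx']

theorem val_x : ∫ x in Ioi (0 : ℝ), Real.exp (-x) * |x| = 1 := by
  have h := Real.Gamma_eq_integral (s := 2) (by norm_num)
  have h2 : Real.Gamma 2 = 1 := Real.Gamma_two
  rw [h2] at h
  rw [h]
  refine setIntegral_congr_fun measurableSet_Ioi ?_
  intro x hx
  have hx' : (0 : ℝ) < x := hx
  have e2 : (2 : ℝ) - 1 = 1 := by norm_num
  show Real.exp (-x) * |x| = Real.exp (-x) * x ^ ((2 : ℝ) - 1)
  rw [e2, Real.rpow_one, abs_of_pos hx']

theorem exp_sum {m : ℕ} (r : ℝ) (t : Fin m → ℝ) :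
    Real.exp (-(r * ∑ a, t a)) = ∏ a, Real.exp (-(r * t a)) := by
  rw [← Real.exp_sum, Finset.mul_sum, Finset.sum_neg_distrib]

theorem part1 (m : ℕ) (r : ℝ) (hr : 0 < r) :
    IntegrableOn (fun t : Fin m → ℝ => Real.exp (-(r * ∑ a, t a))) (pos m) ∧
    ∫ t in pos m, Real.exp (-(r * ∑ a, t a)) = (r ^ m)⁻¹ := by
  constructor
  · show Integrable _ ((volume : Measure (Fin m → ℝ)).restrict (pos m))
    rw [restrict_pos]
    simp_rw [exp_sum]
    exact Integrable.fintype_prod fun _ => int_exp hr
  · rw [restrict_pos]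
    simp_rw [exp_sum]
    rw [integral_fintype_prod_eq_prod (fun (_ : Fin m) (x : ℝ) => Real.exp (-(r * x)))]
    rw [Finset.prod_const, val_exp hr, Finset.card_univ, Fintype.card_fin, inv_pow]

/-- the factors -/
def fac {m : ℕ} (a b : Fin m) (x : ℝ) : ℝ := if b = a then Real.exp (-x) * |x| else Real.exp (-x)

theorem int_fac {m : ℕ} (a b : Fin m) : Integrable (fac a b) (volume.restrict (Ioi 0)) := by
  unfold fac
  by_cases h : b = a
  · simp only [h, if_true]
    exact int_x
  · simp only [h, if_false]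
    have := int_exp (r := 1) one_pos
    simpa only [one_mul] using this

theorem val_fac {m : ℕ} (a b : Fin m) : ∫ x in Ioi (0 : ℝ), fac a b x = 1 := by
  unfold fac
  by_cases h : b = a
  · simp only [h, if_true]
    exact val_x
  · simp only [h, if_false]
    have := val_exp (r := 1) one_pos
    simpa only [one_mul, inv_one] using this

theorem prod_fac {m : ℕ} (a : Fin m) (t : Fin m → ℝ) :
    ∏ b, fac a b (t b) = Real.exp (-∑ c, t c) * |t a| := by
  have h1 : ∀ b, fac a b (t b) = Real.exp (-(t b)) * (if b = a then |t b| else 1) := by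
    intro b
    unfold fac
    split_ifs <;> simp
  rw [Finset.prod_congr rfl fun b _ => h1 b, Finset.prod_mul_distrib, ← Real.exp_sum,
    Finset.sum_neg_distrib, Finset.prod_ite_eq']
  simp

theorem part3 (m : ℕ) : Ex m (fun t => ∑ a, |t a|) = m := by
  unfold Ex
  rw [restrict_pos]
  have h1 : ∀ t : Fin m → ℝ, Real.exp (-∑ a, t a) * ∑ a, |t a| = ∑ a, ∏ b, fac a b (t b) := by
    intro t
    rw [Finset.mul_sum]
    exact Finset.sum_congr rfl fun a _ => (prod_fac a t).symm
  simp_rw [h1]
  rw [integral_finsetSum]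
  · have h2 : ∀ a : Fin m, ∫ t : Fin m → ℝ, ∏ b, fac a b (t b)
        ∂(Measure.pi fun _ : Fin m => (volume : Measure ℝ).restrict (Ioi 0)) = 1 := by
      intro a
      rw [integral_fintype_prod_eq_prod (fun (b : Fin m) (x : ℝ) => fac a b x)]
      rw [Finset.prod_congr rfl fun b _ => val_fac a b, Finset.prod_const_one]
    rw [Finset.sum_congr rfl fun a _ => h2 a]
    simp
  · intro a _
    exact Integrable.fintype_prod fun b => int_fac a b

theorem part2 (m : ℕ) : SL m (fun t => ∑ a, |t a|) where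
  cont := by fun_prop
  nn := fun t => Finset.sum_nonneg fun a _ => abs_nonneg _
  add := by
    intro s t
    rw [← Finset.sum_add_distrib]
    exact Finset.sum_le_sum fun a _ => abs_add_le _ _
  hom := by
    intro c hc t
    rw [Finset.mul_sum]
    refine Finset.sum_congr rfl fun a _ => ?_
    rw [Pi.smul_apply, smul_eq_mul, abs_mul, abs_of_nonneg hc]

theorem gX2 : X2 := fun m => ⟨fun r hr => part1 m r hr, part2 m, part3 m⟩

end Pool.Agent.Helper24.LQ
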