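import Pool.Agent.Helper31.LQ.Goals

set_option autoImplicit false

/-!
Packet LQ-X7: averaging over the permutations.
-/

open MeasureTheory Set

noncomputable section

namespace Pool.Agent.Helper24.LQ

open Pool.Agent.Helper31.LQ

/-- the first elements -/
def fstE (n m : ℕ) (h : m + 1 ≤ n) : Fin (m + 1) ≃ {i : Fin (n + 1) // i.val < m + 1} where
  toFun b := ⟨⟨b.val, by omega⟩, b.isLt⟩
  invFun i := ⟨i.1.val, i.2⟩
  left_inv b := rfl
  right_inv i := rfl

/-- the permutation of the first `m + 1` elements -/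
def e0 {m : ℕ} (a : Fin (m + 1)) : Equiv.Perm (Fin (m + 1)) :=
  (finSuccEquiv' (Fin.last m)).trans (finSuccEquiv' a).symm

theorem e0_last {m : ℕ} (a : Fin (m + 1)) : e0 a (Fin.last m) = a := by
  simp [e0]

theorem e0_cast {m : ℕ} (a : Fin (m + 1)) (b : Fin m) : e0 a b.castSucc = a.succAbove b := by
  unfold e0
  rw [Equiv.trans_apply, ← Fin.succAbove_last_apply, finSuccEquiv'_succAbove,
    finSuccEquiv'_symm_some]

/-- the permutation of `Fin (n + 1)` -/
def tau (n m : ℕ) (h : m + 1 ≤ n) (a : Fin (m + 1)) : Equiv.Perm (Fin (n + 1)) :=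
  (e0 a).extendDomain (fstE n m h)

theorem tau_lt {n m : ℕ} (h : m + 1 ≤ n) (a : Fin (m + 1)) (j : Fin (n + 1)) (hj : j.val < m + 1) :
    (tau n m h a j).val = (e0 a ⟨j.val, hj⟩).val := by
  have := Equiv.Perm.extendDomain_apply_image (e0 a) (fstE n m h) ⟨j.val, hj⟩
  exact congrArg Fin.val this

theorem tau_ge {n m : ℕ} (h : m + 1 ≤ n) (a : Fin (m + 1)) (i : Fin (n + 1)) (hi : m + 1 ≤ i.val) :
    tau n m h a i = i :=
  Equiv.Perm.extendDomain_apply_not_subtype _ _ (by simpa using hi)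

theorem emb_tau {n m : ℕ} (h : m + 1 ≤ n) (a : Fin (m + 1)) (π : Equiv.Perm (Fin (n + 1)))
    (s : Fin m → ℝ) : emb (m + 1) π (a.insertNth (α := fun _ => ℝ) 0 s) =
      emb m (π * tau n m h a) s := by
  funext o
  obtain ⟨j, hj⟩ : ∃ j, π (tau n m h a j) = o := ⟨(tau n m h a).symm (π.symm o), by simp⟩
  have h1 : π.symm o = tau n m h a j := by rw [← hj, Equiv.symm_apply_apply]
  have h2 : (π * tau n m h a).symm o = j := by
    rw [Equiv.symm_apply_eq]
    exact hj.symm
  unfold emb
  rw [h1, h2]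
  rcases lt_or_ge j.val m with hlt | hge
  · have e2 : (tau n m h a j).val = (a.succAbove ⟨j.val, hlt⟩).val := by
      rw [tau_lt h a j (by omega)]
      exact congrArg Fin.val (e0_cast a ⟨j.val, hlt⟩)
    have e3 : (tau n m h a j).val < m + 1 := by
      rw [e2]
      exact (a.succAbove ⟨j.val, hlt⟩).isLt
    rw [dif_pos hlt, dif_pos e3]
    have e4 : (⟨(tau n m h a j).val, e3⟩ : Fin (m + 1)) = a.succAbove ⟨j.val, hlt⟩ := Fin.ext e2
    rw [e4, Fin.insertNth_apply_succAbove]
  · rcases eq_or_lt_of_le hge with heq | hgt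
    · have e2 : (tau n m h a j).val = a.val := by
        rw [tau_lt h a j (by omega)]
        have e5 : (⟨j.val, by omega⟩ : Fin (m + 1)) = Fin.last m := Fin.ext heq.symm
        rw [e5, e0_last]
      have e3 : (tau n m h a j).val < m + 1 := by
        rw [e2]
        exact a.isLt
      rw [dif_pos e3, dif_neg (by omega)]
      have e4 : (⟨(tau n m h a j).val, e3⟩ : Fin (m + 1)) = a := Fin.ext e2
      rw [e4, Fin.insertNth_apply_same]
    · have e2 : tau n m h a j = j := tau_ge h a j hgt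
      rw [e2, dif_neg (by omega), dif_neg (by omega)]

theorem gX7 : X7 := by
  intro n m h Φ
  rw [Finset.sum_comm]
  have key : ∀ a : Fin (m + 1), (∑ π : Equiv.Perm (Fin (n + 1)),
      (Ex m fun s => Φ (π (Fin.last n)) (emb (m + 1) π (a.insertNth (α := fun _ => ℝ) 0 s)))) =
      ∑ π : Equiv.Perm (Fin (n + 1)), EP m π (Φ (π (Fin.last n))) := by
    intro a
    refine Fintype.sum_equiv (Equiv.mulRight (tau n m h a)) _ _ ?_
    intro π
    unfold EP
    have e1 : (Equiv.mulRight (tau n m h a)) π = π * tau n m h a := rfl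
    rw [e1]
    have e2 : (π * tau n m h a) (Fin.last n) = π (Fin.last n) := by
      rw [Equiv.Perm.mul_apply, tau_ge h a _ (by simpa using h)]
    rw [e2]
    simp_rw [emb_tau h]
  rw [Finset.sum_congr rfl fun a _ => key a, Finset.sum_const, Finset.card_univ, Fintype.card_fin,
    nsmul_eq_mul]
  push_cast
  rfl

end Pool.Agent.Helper24.LQ
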